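import Pool.Agent.H11.SK.Fin

/-!
# The rank one abelian Stark conjecture (Q1) from cyclic subextensions

Let `H / K` be a finite abelian extension of number fields, with group `G`, and let `S`, `p` be as
in Q1 (`Data K H S p`). It is well known that Q1 for `H / K` and `S` gives Q1 for the subextensions
`F / K`, and that Q1 for a set `S'` gives Q1 for the larger sets. We prove a converse: if `S`
contains enough primes more than `S'`, then Q1 for `H / K`, `S` follows from Q1 for the cyclic
subextensions `F / K` and sets `S' ⊆ S` (which may depend on `F`, for example `S'` consists of the
archimedean places, `p` and the primes which ramify in `F`, so the primes of `S` which ramify in `H`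
but not in `F` count).

THEOREM. Let `c ≥ 1`. Suppose that for all primes `l` and all cyclic subextensions `F / K` there is
`S' ⊆ S` as in Q1 for `F / K`, `p`, such that the `l`-part of Q1 is true for `F / K`, `p` and `S'` and
`S' ∪ {q}`, `q ∈ S \ S'`, and such that, if the Sylow `l`-subgroup of `G` is not cyclic, of order
`l ^ m`, and `l ^ n` is the exact power of `l` in `[F : K]`, `l ^ v` the one in `c` and
`k = m - max (1, n) - v > 0`, then there are at least `k (l ^ n - l ^ (n - 1)) + l ^ (n - 1) + 1`
primes in `S \ S'` whose Frobenius automorphism in `Gal(F/K)` has `l`-power order (`2` primes if
`n = 0`). Then Q1 is true for `H / K`, `S`, `p` with `c ζ'` in place of `ζ'`; for `c = 1` this is Q1,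
with all its conditions.

If `c` is divisible by `|G_l| / l` for all the noncyclic Sylow subgroups `G_l` of `G` then there is no
condition on the number of the primes. For example if `G` is `C_2 × C_2`, `c = 1` and `S'` is as
above, three such primes for the quadratic `F` suffice (and two for `F = K`).

Proof. 1. Relations (Kuroda): for `E / C` isomorphic to `C_q × C_q` the sum of the norm elements of
the `q + 1` subgroups between is `q N_C + N_E`. By induction `[G : C] N_C` is an integral combination
of the `[G : D] N_D`, `G / D` cyclic (and of `l N_D` if `l` does not divide `[G : D]`). 2. Euler factors: for cyclic `F` the vector of the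
`ζ_S'(0, g)` is the product of the `1 - Frob_q⁻¹`, `q ∈ S \ S'`, applied to the one for `S'`, plus the
sum over `q` of the products of the other factors, applied to vectors `u_q` which come from the values
`ζ_{S'}(0, g)` and which are Stark vectors because of Q1 for `S' ∪ {q}` (so the vanishing of the
values at `0` and Artin reciprocity are not used). 3. In the group ring of the cyclic group of order
`l ^ n` the power `(1 - y) ^ (k (l ^ n - l ^ (n - 1)) + l ^ (n - 1))` is divisible by `l ^ k`. So the
vector for `F` is `l ^ k` times a Stark vector, and the denominator in 1. can be cancelled.
4. Uniqueness of the Frobenius automorphisms, of the continuation; the Galois group acts on the group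
of the elements with abelian `W`-th roots.
-/

set_option autoImplicit false

namespace Pool.Agent.Results.MP_ca56d1_nt.CyclicSubextensions

open NumberField Pool.Agent.N598.ST Pool.Agent.H11.SK

/-- **Q1 from cyclic subextensions.** `H / K` is a finite abelian extension of number fields, and
`S`, `p` satisfy the hypotheses of the conjecture. If for all primes `l` the `l`-part of the
conjecture is known for all cyclic subextensions `F / K` of `H / K` and suitable subsets `S'` of `S`,
with enough primes in `S` outside of `S'` (`KnownPart`), then `c` times the conjecture holds for
`H / K`, `S`, `p`. For `c = 1` this is the conjecture. -/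
theorem result (K H : Type) [Field K] [NumberField K] [Field H] [NumberField H] [Algebra K H]
    [IsAbelianGalois K H] (S : Finset (Place K)) (p : Place K) (hD : Data K H S p) (c : ℕ)
    (hyp : ∀ l : ℕ, l.Prime → ∀ F : IntermediateField K H, IsCyclic Gal(F/K) →
      ∃ (S' : Finset (Place K)) (a' : Ideal (𝓞 K) → Gal(F/K)) (Z' : Gal(F/K) → ℂ → ℂ),
        KnownPart l (c.factorization l) S p F S' a' Z') :
    StarkMul K H c S p ∧ (c = 1 → Stark K H S p) := by
  have h := mul_of_known hD c hyp
  refine ⟨h, fun hc => ?_⟩
  rw [stark_iff]
  subst hc
  simpa using h

end Pool.Agent.Results.MP_ca56d1_nt.CyclicSubextensions
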